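import Mathlib
import Pool.Agent.Lib_MP_9293ae_ag.Main

set_option autoImplicit false

open scoped TensorProduct

namespace Pool.Agent.Results.MP_9293ae_ag.DegreeThree

open Pool.Agent.DegThree

/-- Degree three maps from `E × C` to the plane. The function field of a product of two curves is
the fraction field `K` of the tensor product of their function fields.
(1) For all elliptic curves `E₁`, `E₂` (and `E₂` has genus one) there is a dominant rational map of
degree three from `E₁ × E₂` to the plane.
(2) For every elliptic curve `E` with `j ≠ 0, 1728` and every curve `C` (with function field `F`) of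
genus at least two there is no such map from `E × C`; every surface which is the target of a
dominant rational map of degree three from `E × C` has a nonzero regular one-form. -/
theorem result :
    (∀ (E₁ E₂ : WeierstrassCurve ℂ) [E₁.IsElliptic] [E₂.IsElliptic],
      (IsFunctionField 1 E₂.toAffine.FunctionField ∧ genus E₂.toAffine.FunctionField = 1) ∧
      ∀ (K : Type) [Field K] [Algebra ℂ K]
        [Algebra (E₁.toAffine.FunctionField ⊗[ℂ] E₂.toAffine.FunctionField) K]
        [IsScalarTower ℂ (E₁.toAffine.FunctionField ⊗[ℂ] E₂.toAffine.FunctionField) K]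
        [IsFractionRing (E₁.toAffine.FunctionField ⊗[ℂ] E₂.toAffine.FunctionField) K],
        HasMapToPlane K 3) ∧
    (∀ (E : WeierstrassCurve ℂ) [E.IsElliptic], E.j ≠ 0 → E.j ≠ 1728 →
      ∀ (F : Type) [Field F] [Algebra ℂ F], IsFunctionField 1 F → 2 ≤ genus F →
      ∀ (K : Type) [Field K] [Algebra ℂ K] [Algebra (E.toAffine.FunctionField ⊗[ℂ] F) K]
        [IsScalarTower ℂ (E.toAffine.FunctionField ⊗[ℂ] F) K]
        [IsFractionRing (E.toAffine.FunctionField ⊗[ℂ] F) K],
        ¬ HasMapToPlane K 3 ∧
        ∀ L : IntermediateField ℂ K, Module.finrank L K = 3 → regularForms L ≠ ⊥) :=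
  main

end Pool.Agent.Results.MP_9293ae_ag.DegreeThree
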